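import Pool.Agent.V11230.MS5

/-!
# Matrix symmetry is NP-complete

A reduction from 3SAT.  The matrix has classes of rows and columns, and a large block that makes the
row sums and column sums of different classes different, so that a permutation that makes the matrix
symmetric preserves the classes.  A class of two rows represents a bit (whether the permutation
exchanges them).  A class of four rows, linked to three bits, forces that the sum of the bits is odd;
the inhomogeneous term comes from a twist of the links.  A class of four rows with an identity block
forces that the permutation has order two on it; it is linked to two bits, as the vertices of a
4-cycle, such that the bits are both 1 only if the permutation has order four.  So for each clause a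
nonempty set of its literals is selected, and complementary literals are not both selected.
-/

set_option autoImplicit false

namespace Pool.Agent.Results.MP_e2e0ab_lc.MatrixSymmetryNPComplete

open Pool.Agent.NPC Pool.Agent.V11230.MS Pool.Agent.NPC.V11230.MSP Pool.Agent.H622R2

/-- Graph isomorphism: the instances are pairs of graphs, given by adjacency matrices. -/
def GI (I : List (List Bool) × List (List Bool)) : Prop :=
  Nonempty (matGraph I.1 ≃g matGraph I.2)

/-- **Matrix symmetry is NP-complete.**  Hence it does not reduce to graph isomorphism unless graph
isomorphism is NP-hard. -/
theorem result : (InNPP MSym ∧ NPHardP MSym) ∧
    (Reduces (lang MSym) (lang GI) → NPHardP GI) :=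
  ⟨⟨inNPP_MSym, hard_MSym.toNPHardP⟩, fun h => NPHard.of_reduces hard_MSym.toNPHardP h⟩

end Pool.Agent.Results.MP_e2e0ab_lc.MatrixSymmetryNPComplete
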